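import Mathlib
import Pool.Agent.W788.NV.Stm

/-!
# Project NV: part FIN2 (helper538)
-/

set_option autoImplicit false

namespace Pool.Agent.W538.NV

open Pool.Agent.W788.NV

theorem fin2_ (h1 : S_LOW) (h2 : S_UPP) : S_FIN2 := by
  intro q θ Δ hq hθ hθ1 ε hε hε1
  set K : ℝ := 8 * (Δ : ℝ) ^ 2 / θ ^ 2 * Real.exp (θ / 2) with hK
  have hK0 : 0 ≤ K := by positivity
  set A : ℝ := 2 * ((1 / 20 + 4 / θ) * (5 / 3) * (Δ : ℝ) ^ 2 * K + 5 * (Δ : ℝ) ^ 3) with hA
  have hA0 : 0 ≤ A := by positivity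
  have hq0 : (0 : ℝ) < (q : ℝ) := by
    have : 0 < q := by omega
    exact_mod_cast this
  have h1e : 0 < 1 - ε := by linarith
  refine ⟨A * (q : ℝ) ^ 4 / (1 - ε), ?_⟩
  set C : ℝ := A * (q : ℝ) ^ 4 / (1 - ε) with hC
  have hC0 : 0 ≤ C := by positivity
  intro V _ _ G x0 μ hd1 hd2 hcard hμ
  have hN3 : (3 : ℝ) ≤ (Fintype.card V : ℝ) := by exact_mod_cast hcard
  set N : ℝ := (Fintype.card V : ℝ) with hN
  have hN0 : 0 < N := by linarith
  set L : ℝ := Real.log N with hL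
  have hL0 : 0 ≤ L := Real.log_nonneg (by linarith)
  have hNL : N = Real.exp L := (Real.exp_log hN0).symm
  have hne : {t : ℝ | 0 ≤ t ∧ tv (law G q θ x0 t) μ ≤ ε}.Nonempty := by
    refine ⟨(1 / θ) * (N * Δ / ε), by positivity, ?_⟩
    refine (h2 V G q θ Δ (by omega) hθ hθ1 hd1 hd2 x0 μ _ hμ (by positivity)).trans ?_
    have e1 : -θ * ((1 / θ) * (N * Δ / ε)) = -(N * Δ / ε) := by
      field_simp
    rw [← hN, e1]
    have h3 : N * Δ = ε * (N * Δ / ε) := by
      field_simp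
    have h4 : (N * Δ / ε) * Real.exp (-(N * Δ / ε)) ≤ 1 := by
      rw [Real.exp_neg, ← div_eq_mul_inv, div_le_one (Real.exp_pos _)]
      have := Real.add_one_le_exp (N * Δ / ε)
      linarith
    calc N * Δ * Real.exp (-(N * Δ / ε)) = ε * ((N * Δ / ε) * Real.exp (-(N * Δ / ε))) := by
          rw [← mul_assoc, ← h3]
      _ ≤ ε * 1 := mul_le_mul_of_nonneg_left h4 hε.le
      _ = ε := mul_one _
  refine le_csInf hne ?_
  rintro t ⟨ht0, htv⟩
  by_contra hcon
  push Not at hcon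
  have hLL : L ≤ (5 / 3) * Real.exp ((3 / 5) * L) := by
    have := Real.add_one_le_exp ((3 / 5) * L)
    linarith
  have hu0 : 0 ≤ (4 / θ) * L := by positivity
  have hlow := h1 V G q θ Δ hq hθ hθ1 hd1 hd2 x0 μ t ((4 / θ) * L) hμ ht0 hu0
  rw [← hN, ← hK] at hlow
  have e2 : -θ * ((4 / θ) * L) = -(4 * L) := by
    field_simp
  rw [e2] at hlow
  -- lower bound of the left side
  have hE : Real.exp ((8 / 5) * L) * Real.exp (8 * C) / (q : ℝ) ^ 4 ≤
      (N * Real.exp (-4 * t) / (q : ℝ) ^ 2) ^ 2 := by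
    have e3 : (N * Real.exp (-4 * t) / (q : ℝ) ^ 2) ^ 2 =
        Real.exp (2 * L - 8 * t) / (q : ℝ) ^ 4 := by
      rw [hNL, ← Real.exp_add, div_pow, ← Real.exp_nat_mul, ← pow_mul]
      congr 2
      push_cast
      ring
    rw [e3, ← Real.exp_add]
    refine div_le_div_of_nonneg_right ?_ (by positivity)
    apply Real.exp_le_exp.2
    linarith
  have hlhs : (1 - ε) * (Real.exp ((8 / 5) * L) * Real.exp (8 * C) / (q : ℝ) ^ 4) ≤
      (1 - tv (law G q θ x0 t) μ) * (N * Real.exp (-4 * t) / (q : ℝ) ^ 2) ^ 2 := by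
    refine mul_le_mul (by linarith) hE (by positivity) (by linarith)
  -- upper bound of the right side
  have hrhs : 2 * ((t + (4 / θ) * L) * N * (Δ : ℝ) ^ 2 * K +
        5 * (N * Δ) ^ 2 * (N * Δ * Real.exp (-(4 * L)))) ≤ A * Real.exp ((8 / 5) * L) := by
    have h5 : (t + (4 / θ) * L) * N ≤ (1 / 20 + 4 / θ) * (5 / 3) * Real.exp ((8 / 5) * L) := by
      have h6 : t + (4 / θ) * L ≤ (1 / 20 + 4 / θ) * L := by
        have : t ≤ (1 / 20) * L := by linarith
        nlinarith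
      have h7 : L * N ≤ (5 / 3) * Real.exp ((8 / 5) * L) := by
        calc L * N ≤ (5 / 3) * Real.exp ((3 / 5) * L) * N :=
              mul_le_mul_of_nonneg_right hLL hN0.le
          _ = (5 / 3) * Real.exp ((8 / 5) * L) := by
              rw [hNL, mul_assoc, ← Real.exp_add]
              congr 2
              ring
      calc (t + (4 / θ) * L) * N ≤ (1 / 20 + 4 / θ) * L * N :=
            mul_le_mul_of_nonneg_right h6 hN0.le
        _ = (1 / 20 + 4 / θ) * (L * N) := by ring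
        _ ≤ (1 / 20 + 4 / θ) * ((5 / 3) * Real.exp ((8 / 5) * L)) :=
            mul_le_mul_of_nonneg_left h7 (by positivity)
        _ = _ := by ring
    have h8 : (N * Δ) ^ 2 * (N * Δ * Real.exp (-(4 * L))) ≤ (Δ : ℝ) ^ 3 * Real.exp ((8 / 5) * L) := by
      have e4 : (N * Δ) ^ 2 * (N * Δ * Real.exp (-(4 * L))) =
          (Δ : ℝ) ^ 3 * (N ^ 3 * Real.exp (-(4 * L))) := by ring
      rw [e4]
      refine mul_le_mul_of_nonneg_left ?_ (by positivity)
      rw [hNL, ← Real.exp_nat_mul, ← Real.exp_add]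
      apply Real.exp_le_exp.2
      push_cast
      linarith
    calc 2 * ((t + (4 / θ) * L) * N * (Δ : ℝ) ^ 2 * K +
          5 * (N * Δ) ^ 2 * (N * Δ * Real.exp (-(4 * L))))
        = 2 * (((t + (4 / θ) * L) * N) * ((Δ : ℝ) ^ 2 * K) +
          5 * ((N * Δ) ^ 2 * (N * Δ * Real.exp (-(4 * L))))) := by ring
      _ ≤ 2 * (((1 / 20 + 4 / θ) * (5 / 3) * Real.exp ((8 / 5) * L)) * ((Δ : ℝ) ^ 2 * K) +
          5 * ((Δ : ℝ) ^ 3 * Real.exp ((8 / 5) * L))) := by
            have h9 := mul_le_mul_of_nonneg_right h5 (show 0 ≤ (Δ : ℝ) ^ 2 * K by positivity)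
            linarith
      _ = A * Real.exp ((8 / 5) * L) := by
            rw [hA]
            ring
  have hmain := (hlhs.trans hlow).trans hrhs
  have hEp : 0 < Real.exp ((8 / 5) * L) := Real.exp_pos _
  have h10 : (1 - ε) * (Real.exp (8 * C) / (q : ℝ) ^ 4) ≤ A := by
    have : ((1 - ε) * (Real.exp (8 * C) / (q : ℝ) ^ 4)) * Real.exp ((8 / 5) * L) ≤
        A * Real.exp ((8 / 5) * L) := by
      refine le_trans (le_of_eq ?_) hmain
      ring
    exact le_of_mul_le_mul_right this hEp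
  have h11 : Real.exp (8 * C) ≤ C := by
    rw [hC, le_div_iff₀ h1e, ← hC]
    rw [← mul_div_assoc, div_le_iff₀ (by positivity)] at h10
    linarith
  have h12 := Real.add_one_le_exp (8 * C)
  linarith

end Pool.Agent.W538.NV
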